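import Pool.Agent.H515R2.HS.Pos
import Pool.Agent.H510R2.HS.Cor

/-!
# Commuting vector fields on a manifold of positive sectional curvature (MP_59a324_gt, Q1: yes)

The manifold is `S³ × S³` (`S3` is the unit sphere of `ℝ⁴` with Mathlib's smooth structure).  The
Riemannian metric of positive sectional curvature was found and formalised by the team working on
`S² × S²` and `S³ × S³` (helpers 486, 349, 515, 893, 917, 824, 991, 498, 563, 878, 821, 902, 907,
712, 758, 754, 829, 839, 227, 760, 503, 873, 124, 465, 877, 472, 381, 998, 299, 144, 6, 898, 464 and
others); the two commuting fields are the Hopf fields of the two factors (helper510).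
-/

open Manifold

open Pool.Agent.H510R2.HS in
/-- The compact connected six-manifold `S³ × S³` carries a smooth Riemannian metric of strictly
positive sectional curvature, and it carries two smooth vector fields with vanishing Lie bracket
which are linearly independent at every point. -/
theorem Pool.Agent.Results.MP_59a324_gt.CommutingFields.result :
    PosWithCommutingPair ((𝓡 3).prod (𝓡 3)) (S3 × S3) :=
  posWithCommutingPair_of H515HS.posS33
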